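import Mathlib

set_option autoImplicit false
open Filter Topology Finset

namespace Pool.Agent.H716Z.DP

/-- indicator of the block `[a, a + l)` -/
noncomputable def blk (a l t : ℕ) : ℝ := if a ≤ t ∧ t < a + l then 1 else 0

lemma blk_nonneg (a l t : ℕ) : 0 ≤ blk a l t := by
  unfold blk; split_ifs <;> norm_num

lemma blk_le_one (a l t : ℕ) : blk a l t ≤ 1 := by
  unfold blk; split_ifs <;> norm_num

lemma hasSum_blk (a l : ℕ) : HasSum (blk a l) l := by
  have h : HasSum (blk a l) (∑ t ∈ Finset.Ico a (a + l), blk a l t) := by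
    apply hasSum_sum_of_ne_finset_zero
    intro t ht
    unfold blk
    rw [Finset.mem_Ico] at ht
    rw [if_neg ht]
  have e : ∑ t ∈ Finset.Ico a (a + l), blk a l t = l := by
    rw [Finset.sum_congr rfl (g := fun _ => (1 : ℝ))]
    · simp
    · intro t ht
      unfold blk
      rw [Finset.mem_Ico] at ht
      rw [if_pos ht]
  rwa [e] at h

lemma sum_blk_le (a l : ℕ) (s : Finset ℕ) : ∑ t ∈ s, blk a l t ≤ l :=
  sum_le_hasSum s (fun t _ => blk_nonneg a l t) (hasSum_blk a l)

lemma blk_diff_le (a l t : ℕ) :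
    |blk a l (t + 1) - blk a l t| ≤ blk (a - 1) 1 t + blk (a + l - 1) 1 t := by
  unfold blk
  split_ifs <;> first | (exfalso; omega) | norm_num

lemma tv_blk (a l : ℕ) (s : Finset ℕ) : ∑ t ∈ s, |blk a l (t + 1) - blk a l t| ≤ 2 := by
  calc ∑ t ∈ s, |blk a l (t + 1) - blk a l t|
      ≤ ∑ t ∈ s, (blk (a - 1) 1 t + blk (a + l - 1) 1 t) :=
        Finset.sum_le_sum fun t _ => blk_diff_le a l t
    _ = ∑ t ∈ s, blk (a - 1) 1 t + ∑ t ∈ s, blk (a + l - 1) 1 t := Finset.sum_add_distrib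
    _ ≤ 2 := by
        have h1 := sum_blk_le (a - 1) 1 s
        have h2 := sum_blk_le (a + l - 1) 1 s
        push_cast at h1 h2
        linarith

/-- `k` windows of length `k`, far apart. -/
noncomputable def th (k t : ℕ) : ℝ := (∑ j ∈ range k, blk (j * (2 * k ^ 3)) k t) / (k : ℝ) ^ 2

lemma th_nonneg (k t : ℕ) : 0 ≤ th k t := by
  unfold th
  exact div_nonneg (Finset.sum_nonneg fun j _ => blk_nonneg _ _ _) (by positivity)

lemma hasSum_th (k : ℕ) (hk : 1 ≤ k) : HasSum (th k) 1 := by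
  have h : HasSum (fun t => ∑ j ∈ range k, blk (j * (2 * k ^ 3)) k t) (∑ _j ∈ range k, (k : ℝ)) :=
    hasSum_sum fun j _ => hasSum_blk _ _
  have h2 := h.div_const ((k : ℝ) ^ 2)
  have hk' : (k : ℝ) ≠ 0 := by positivity
  have e : (∑ _j ∈ range k, (k : ℝ)) / (k : ℝ) ^ 2 = 1 := by
    simp only [Finset.sum_const, Finset.card_range, nsmul_eq_mul]
    field_simp
  rw [e] at h2
  exact h2

lemma tv_th (k : ℕ) (hk : 1 ≤ k) (s : Finset ℕ) :
    ∑ t ∈ s, |th k (t + 1) - th k t| ≤ 2 / k := by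
  have hk' : (0 : ℝ) < k := by exact_mod_cast hk
  have h1 : ∀ t, |th k (t + 1) - th k t| ≤
      (∑ j ∈ range k, |blk (j * (2 * k ^ 3)) k (t + 1) - blk (j * (2 * k ^ 3)) k t|) /
        (k : ℝ) ^ 2 := by
    intro t
    unfold th
    rw [← sub_div, abs_div, abs_of_pos (by positivity : (0 : ℝ) < (k : ℝ) ^ 2),
      ← Finset.sum_sub_distrib]
    gcongr
    exact Finset.abs_sum_le_sum_abs _ _
  calc ∑ t ∈ s, |th k (t + 1) - th k t|
      ≤ ∑ t ∈ s, (∑ j ∈ range k,
          |blk (j * (2 * k ^ 3)) k (t + 1) - blk (j * (2 * k ^ 3)) k t|) / (k : ℝ) ^ 2 :=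
        Finset.sum_le_sum fun t _ => h1 t
    _ = (∑ j ∈ range k, ∑ t ∈ s,
          |blk (j * (2 * k ^ 3)) k (t + 1) - blk (j * (2 * k ^ 3)) k t|) / (k : ℝ) ^ 2 := by
        rw [← Finset.sum_div, Finset.sum_comm]
    _ ≤ (∑ _j ∈ range k, (2 : ℝ)) / (k : ℝ) ^ 2 := by
        gcongr with j _
        exact tv_blk _ _ s
    _ = 2 / k := by
        simp only [Finset.sum_const, Finset.card_range, nsmul_eq_mul]
        field_simp

/-- A short interval carries little mass. -/
lemma th_short (k t n : ℕ) (hk : 1 ≤ k) (hn : n ≤ k ^ 3) :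
    ∑ i ∈ range n, th k (t + i) ≤ 1 / k := by
  have hk' : (0 : ℝ) < k := by exact_mod_cast hk
  have hP : 0 < 2 * k ^ 3 := by positivity
  have hkk : k ≤ k ^ 3 := Nat.le_self_pow (by norm_num) k
  set P := 2 * k ^ 3 with hPdef
  set j0 := (t + n) / P with hj0
  have h1 : ∀ i ∈ range n, th k (t + i) ≤ blk (j0 * P) k (t + i) / (k : ℝ) ^ 2 := by
    intro i hi
    rw [Finset.mem_range] at hi
    unfold th
    gcongr
    have h2 : ∀ j ∈ range k, blk (j * (2 * k ^ 3)) k (t + i) =
        if j = j0 then blk (j0 * P) k (t + i) else 0 := by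
      intro j _
      split_ifs with h
      · rw [h]
      · unfold blk
        rw [if_neg]
        rintro ⟨ha, hb⟩
        apply h
        rw [hj0]
        symm
        rw [Nat.div_eq_iff hP]
        rw [← hPdef] at ha hb
        constructor
        · omega
        · omega
    rw [Finset.sum_congr rfl h2, Finset.sum_ite_eq']
    split_ifs
    · exact le_rfl
    · exact blk_nonneg _ _ _
  calc ∑ i ∈ range n, th k (t + i) ≤ ∑ i ∈ range n, blk (j0 * P) k (t + i) / (k : ℝ) ^ 2 :=
        Finset.sum_le_sum h1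
    _ = (∑ i ∈ (range n).map (addLeftEmbedding t), blk (j0 * P) k i) / (k : ℝ) ^ 2 := by
        rw [← Finset.sum_div, Finset.sum_map]
        rfl
    _ ≤ (k : ℝ) / (k : ℝ) ^ 2 := by
        gcongr
        exact sum_blk_le _ _ _
    _ = 1 / k := by field_simp

/-- The total number of times in the support is at most `k^2`. -/
lemma th_supp (k t n : ℕ) :
    ∑ i ∈ range n, (if th k (t + i) = 0 then (0 : ℝ) else 1) ≤ (k : ℝ) ^ 2 := by
  have h1 : ∀ u, (if th k u = 0 then (0 : ℝ) else 1) ≤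
      ∑ j ∈ range k, blk (j * (2 * k ^ 3)) k u := by
    intro u
    split_ifs with h
    · exact Finset.sum_nonneg fun j _ => blk_nonneg _ _ _
    · have h3 : ∑ j ∈ range k, blk (j * (2 * k ^ 3)) k u ≠ 0 := by
        intro h4
        apply h
        unfold th
        rw [h4, zero_div]
      obtain ⟨j, hj, hj2⟩ := Finset.exists_ne_zero_of_sum_ne_zero h3
      have h5 : blk (j * (2 * k ^ 3)) k u = 1 := by
        unfold blk at hj2 ⊢
        split_ifs at hj2 ⊢ with h6
        · rfl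
        · exact absurd rfl hj2
      rw [← h5]
      exact Finset.single_le_sum (f := fun j => blk (j * (2 * k ^ 3)) k u)
        (fun j _ => blk_nonneg _ _ _) hj
  calc ∑ i ∈ range n, (if th k (t + i) = 0 then (0 : ℝ) else 1)
      ≤ ∑ i ∈ range n, ∑ j ∈ range k, blk (j * (2 * k ^ 3)) k (t + i) :=
        Finset.sum_le_sum fun i _ => h1 _
    _ = ∑ j ∈ range k, ∑ i ∈ (range n).map (addLeftEmbedding t), blk (j * (2 * k ^ 3)) k i := by
        rw [Finset.sum_comm]
        refine Finset.sum_congr rfl fun j _ => ?_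
        rw [Finset.sum_map]
        rfl
    _ ≤ ∑ _j ∈ range k, (k : ℝ) := Finset.sum_le_sum fun j _ => sum_blk_le _ _ _
    _ = (k : ℝ) ^ 2 := by
        simp only [Finset.sum_const, Finset.card_range, nsmul_eq_mul]
        ring

/-- States: (system, time, potential, payoff flag). -/
abbrev Z := ℕ × ℕ × ℝ × Bool

noncomputable def clip (x : ℝ) : ℝ := max 0 (min x 1)

lemma clip_nonneg (x : ℝ) : 0 ≤ clip x := le_max_left _ _
lemma clip_le_one (x : ℝ) : clip x ≤ 1 := max_le (by norm_num) (min_le_right _ _)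
lemma clip_mono {x y : ℝ} (h : x ≤ y) : clip x ≤ clip y :=
  max_le_max le_rfl (min_le_min h le_rfl)
lemma clip_sub {x c : ℝ} (h : 0 ≤ c) : clip x - c ≤ clip (x - c) := by
  unfold clip
  simp only [max_def, min_def]
  split_ifs <;> linarith

def F (z : Z) : Set Z :=
  {(z.1, z.2.1 + 1, z.2.2.1, false), (z.1, z.2.1 + 1, z.2.2.1 - 2 * th z.1 z.2.1, true)}

noncomputable def r (z : Z) : ℝ := if z.2.2.2 then clip z.2.2.1 else 0

lemma r_nonneg (z : Z) : 0 ≤ r z := by
  unfold r; split_ifs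
  · exact clip_nonneg _
  · exact le_rfl

lemma r_le_clip (z : Z) : r z ≤ clip z.2.2.1 := by
  unfold r; split_ifs
  · exact le_rfl
  · exact clip_nonneg _

lemma r_le_one (z : Z) : r z ≤ 1 := (r_le_clip z).trans (clip_le_one _)

/-- value for weights `θ` -/
noncomputable def val (θ : ℕ → ℝ) (z : Z) : ℝ :=
  sSup {x : ℝ | ∃ s : ℕ → Z, s 0 = z ∧ (∀ t, s (t + 1) ∈ F (s t)) ∧
    x = ∑' t, θ t * r (s (t + 1))}

lemma play_inv {s : ℕ → Z} (hs : ∀ t, s (t + 1) ∈ F (s t)) (t : ℕ) :
    (s t).1 = (s 0).1 ∧ (s t).2.1 = (s 0).2.1 + t ∧ (s t).2.2.1 ≤ (s 0).2.2.1 := by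
  induction t with
  | zero => simp
  | succ t ih =>
    obtain ⟨h1, h2, h3⟩ := ih
    have h := hs t
    have h0 := th_nonneg (s t).1 (s t).2.1
    rcases h with h | h
    · rw [h]; refine ⟨h1, ?_, h3⟩; simp only; omega
    · rw [Set.mem_singleton_iff] at h
      rw [h]; refine ⟨h1, ?_, ?_⟩
      · simp only; omega
      · simp only; linarith

lemma pay_le {θ : ℕ → ℝ} (h0 : ∀ t, 0 ≤ θ t) (h1 : HasSum θ 1) {s : ℕ → Z}
    (hs : ∀ t, s (t + 1) ∈ F (s t)) : ∑' t, θ t * r (s (t + 1)) ≤ clip (s 0).2.2.1 := by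
  apply Real.tsum_le_of_sum_le (fun t => mul_nonneg (h0 t) (r_nonneg _))
  intro u
  calc ∑ t ∈ u, θ t * r (s (t + 1)) ≤ ∑ t ∈ u, θ t * clip (s 0).2.2.1 := by
        refine Finset.sum_le_sum fun t _ => mul_le_mul_of_nonneg_left ?_ (h0 t)
        exact (r_le_clip _).trans (clip_mono (play_inv hs (t + 1)).2.2)
    _ = (∑ t ∈ u, θ t) * clip (s 0).2.2.1 := by rw [Finset.sum_mul]
    _ ≤ 1 * clip (s 0).2.2.1 :=
        mul_le_mul_of_nonneg_right (sum_le_hasSum u (fun t _ => h0 t) h1) (clip_nonneg _)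
    _ = _ := one_mul _

/-- the play that pays at every step -/
noncomputable def playB (z : Z) (t : ℕ) : Z :=
  if t = 0 then z else
    (z.1, z.2.1 + t, z.2.2.1 - 2 * ∑ i ∈ range t, th z.1 (z.2.1 + i), true)

lemma playB_mem (z : Z) (t : ℕ) : playB z (t + 1) ∈ F (playB z t) := by
  right
  rw [Set.mem_singleton_iff]
  unfold playB
  rcases Nat.eq_zero_or_pos t with h | h
  · subst h; simp
  · rw [if_neg (by omega), if_neg (by omega), Finset.sum_range_succ]
    simp only [Prod.mk.injEq, and_true, true_and]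
    constructor
    · omega
    · ring

/-- the play that never pays -/
noncomputable def playA (z : Z) (t : ℕ) : Z :=
  if t = 0 then z else
    (z.1, z.2.1 + t, z.2.2.1, decide (th z.1 (z.2.1 + (t - 1)) = 0))

lemma playA_mem (z : Z) (t : ℕ) : playA z (t + 1) ∈ F (playA z t) := by
  have e1 : (playA z t).1 = z.1 := by unfold playA; split_ifs <;> rfl
  have e2 : (playA z t).2.1 = z.2.1 + t := by
    unfold playA; split_ifs with h
    · simp [h]
    · rfl
  have e3 : (playA z t).2.2.1 = z.2.2.1 := by unfold playA; split_ifs <;> rfl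
  have e4 : playA z (t + 1) =
      (z.1, z.2.1 + t + 1, z.2.2.1, decide (th z.1 (z.2.1 + t) = 0)) := by
    unfold playA
    rw [if_neg (by omega)]
    simp [add_assoc]
  unfold F
  rw [e1, e2, e3, e4]
  by_cases h : th z.1 (z.2.1 + t) = 0
  · right; simp [h]
  · left; simp [h]

lemma val_le {θ : ℕ → ℝ} (z : Z) (c : ℝ)
    (h : ∀ s : ℕ → Z, s 0 = z → (∀ t, s (t + 1) ∈ F (s t)) → ∑' t, θ t * r (s (t + 1)) ≤ c) :
    val θ z ≤ c := by
  apply csSup_le
  · exact ⟨_, playB z, by simp [playB], playB_mem z, rfl⟩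
  · rintro x ⟨s, h1, h2, rfl⟩
    exact h s h1 h2

lemma le_val {θ : ℕ → ℝ} (h0 : ∀ t, 0 ≤ θ t) (h1 : HasSum θ 1) (z : Z) (s : ℕ → Z)
    (hs0 : s 0 = z) (hs : ∀ t, s (t + 1) ∈ F (s t)) : ∑' t, θ t * r (s (t + 1)) ≤ val θ z := by
  apply le_csSup
  · refine ⟨1, ?_⟩
    rintro x ⟨s, -, h2, rfl⟩
    exact (pay_le h0 h1 h2).trans (clip_le_one _)
  · exact ⟨s, hs0, hs, rfl⟩

/-- Cesaro weights -/
noncomputable def ces (n t : ℕ) : ℝ := if t < n + 1 then 1 / ((n : ℝ) + 1) else 0

lemma ces_eq (n t : ℕ) : ces n t = blk 0 (n + 1) t / ((n : ℝ) + 1) := by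
  unfold ces blk
  by_cases h : t < n + 1
  · rw [if_pos h, if_pos ⟨Nat.zero_le _, by omega⟩]
  · rw [if_neg h, if_neg (by omega), zero_div]

lemma ces_nonneg (n t : ℕ) : 0 ≤ ces n t := by
  rw [ces_eq]; exact div_nonneg (blk_nonneg _ _ _) (by positivity)

lemma hasSum_ces (n : ℕ) : HasSum (ces n) 1 := by
  have h := (hasSum_blk 0 (n + 1)).div_const ((n : ℝ) + 1)
  have e : (((n + 1 : ℕ) : ℝ)) / ((n : ℝ) + 1) = 1 := by
    push_cast; field_simp
  rw [e] at h
  have e2 : ces n = fun t => blk 0 (n + 1) t / ((n : ℝ) + 1) := funext (ces_eq n)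
  rw [e2]; exact h

lemma tv_ces (n : ℕ) (s : Finset ℕ) : ∑ t ∈ s, |ces n (t + 1) - ces n t| ≤ 2 / ((n : ℝ) + 1) := by
  have h1 : ∀ t, |ces n (t + 1) - ces n t| =
      |blk 0 (n + 1) (t + 1) - blk 0 (n + 1) t| / ((n : ℝ) + 1) := by
    intro t
    rw [ces_eq, ces_eq, ← sub_div, abs_div, abs_of_pos (by positivity : (0 : ℝ) < (n : ℝ) + 1)]
  simp only [h1]
  rw [← Finset.sum_div]
  gcongr
  exact tv_blk _ _ _

lemma tsum_ces (n : ℕ) (a : ℕ → ℝ) :
    ∑' t, ces n t * a t = (∑ t ∈ range (n + 1), a t) / ((n : ℝ) + 1) := by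
  rw [tsum_eq_sum (s := range (n + 1))]
  · rw [Finset.sum_div]
    refine Finset.sum_congr rfl fun t ht => ?_
    unfold ces
    rw [if_pos (Finset.mem_range.1 ht)]
    ring
  · intro t ht
    unfold ces
    rw [if_neg (by simpa using ht), zero_mul]

lemma val_ces_lower (ε : ℝ) (hε : 0 < ε) : ∃ N : ℕ, ∀ n ≥ N, ∀ z : Z,
    clip z.2.2.1 - ε ≤ val (ces n) z := by
  obtain ⟨K, hK⟩ := exists_nat_gt (2 / ε)
  obtain ⟨N, hN⟩ := exists_nat_gt ((K : ℝ) ^ 2 / ε)
  refine ⟨N, fun n hn z => ?_⟩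
  have hn1 : (0 : ℝ) < (n : ℝ) + 1 := by positivity
  have hnN : (N : ℝ) ≤ n := by exact_mod_cast hn
  by_cases hA : (z.1 : ℝ) ^ 2 ≤ ε * ((n : ℝ) + 1)
  · refine le_trans ?_ (le_val (ces_nonneg n) (hasSum_ces n) z (playA z) (by simp [playA])
      (playA_mem z))
    rw [tsum_ces, le_div_iff₀ hn1]
    have h1 : ∀ t ∈ range (n + 1), clip z.2.2.1 - (if th z.1 (z.2.1 + t) = 0 then (0 : ℝ) else 1)
        ≤ r (playA z (t + 1)) := by
      intro t _
      unfold playA r
      rw [if_neg (Nat.succ_ne_zero t)]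
      simp only [Nat.add_sub_cancel, decide_eq_true_eq]
      split_ifs
      · simp
      · linarith [clip_le_one z.2.2.1]
    have h2 := Finset.sum_le_sum h1
    rw [Finset.sum_sub_distrib] at h2
    have h3 := th_supp z.1 z.2.1 (n + 1)
    simp only [Finset.sum_const, Finset.card_range, nsmul_eq_mul] at h2
    push_cast at h2
    nlinarith
  · push Not at hA
    have hK2 : (K : ℝ) ^ 2 < (z.1 : ℝ) ^ 2 := by
      rw [div_lt_iff₀ hε] at hN
      nlinarith
    have hKk : (K : ℝ) < z.1 := by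
      by_contra hc
      push Not at hc
      have : (z.1 : ℝ) ^ 2 ≤ (K : ℝ) ^ 2 := by gcongr
      linarith
    have hK0 : (0 : ℝ) < K := lt_trans (by positivity) hK
    have hk0 : (0 : ℝ) < z.1 := lt_trans hK0 hKk
    have hk1 : 1 ≤ z.1 := by exact_mod_cast hk0
    have hε2 : 2 < ε * z.1 := by
      rw [div_lt_iff₀ hε] at hK
      nlinarith
    have hn3 : n + 1 ≤ z.1 ^ 3 := by
      have : (n : ℝ) + 1 ≤ (z.1 : ℝ) ^ 3 := by
        have h7 : (0 : ℝ) < (z.1 : ℝ) ^ 2 := by positivity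
        have h8 : ε * ((n : ℝ) + 1) ≤ ε * (z.1 : ℝ) ^ 3 := by nlinarith
        exact le_of_mul_le_mul_left h8 hε
      exact_mod_cast this
    refine le_trans ?_ (le_val (ces_nonneg n) (hasSum_ces n) z (playB z) (by simp [playB])
      (playB_mem z))
    rw [tsum_ces, le_div_iff₀ hn1]
    have h1 : ∀ t ∈ range (n + 1), clip z.2.2.1 - ε ≤ r (playB z (t + 1)) := by
      intro t ht
      rw [Finset.mem_range] at ht
      unfold playB r
      rw [if_neg (Nat.succ_ne_zero t)]
      simp only [if_true]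
      have h2 := th_short z.1 z.2.1 (t + 1) hk1 (by omega)
      have h3 : 0 ≤ ∑ i ∈ range (t + 1), th z.1 (z.2.1 + i) :=
        Finset.sum_nonneg fun i _ => th_nonneg _ _
      have h4 := clip_sub (x := z.2.2.1) (c := 2 * ∑ i ∈ range (t + 1), th z.1 (z.2.1 + i))
        (by linarith)
      have h5 : 2 * (1 / (z.1 : ℝ)) ≤ ε := by
        rw [mul_one_div, div_le_iff₀ hk0]; linarith
      linarith
    have h2 := Finset.sum_le_sum h1
    simp only [Finset.sum_const, Finset.card_range, nsmul_eq_mul] at h2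
    push_cast at h2
    linarith

lemma unif_ces : TendstoUniformly (fun (n : ℕ) (z : Z) => val (ces n) z)
    (fun z => clip z.2.2.1) atTop := by
  rw [Metric.tendstoUniformly_iff]
  intro ε hε
  obtain ⟨N, hN⟩ := val_ces_lower (ε / 2) (by linarith)
  filter_upwards [eventually_ge_atTop N] with n hn z
  have h1 := hN n hn z
  have h2 : val (ces n) z ≤ clip z.2.2.1 := by
    apply val_le
    intro s hs0 hs
    rw [← hs0]
    exact pay_le (ces_nonneg n) (hasSum_ces n) hs
  rw [Real.dist_eq, abs_lt]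
  constructor <;> linarith

lemma val_th (k : ℕ) : val (th k) (k, 0, 1, false) ≤ 1 / 2 := by
  apply val_le
  intro s hs0 hs
  apply Real.tsum_le_of_sum_range_le (fun t => mul_nonneg (th_nonneg k t) (r_nonneg _))
  have key : ∀ n, ∑ t ∈ range n, th k t * r (s (t + 1)) ≤
      1 / 2 - max (s n).2.2.1 0 / 2 := by
    intro n
    induction n with
    | zero => simp [hs0]
    | succ n ih =>
      rw [Finset.sum_range_succ]
      obtain ⟨h1, h2, -⟩ := play_inv hs n
      rw [hs0] at h1 h2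
      simp only [zero_add] at h1 h2
      have h0 := th_nonneg k n
      rcases hs n with h | h
      · have e1 : r (s (n + 1)) = 0 := by rw [h]; simp [r]
        have e2 : (s (n + 1)).2.2.1 = (s n).2.2.1 := by rw [h]
        rw [e1, e2, mul_zero, add_zero]
        exact ih
      · rw [Set.mem_singleton_iff, h1, h2] at h
        have e1 : r (s (n + 1)) = clip ((s n).2.2.1 - 2 * th k n) := by rw [h]; simp [r]
        have e2 : (s (n + 1)).2.2.1 = (s n).2.2.1 - 2 * th k n := by rw [h]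
        rw [e1, e2]
        set y := (s n).2.2.1
        have h3 : th k n * clip (y - 2 * th k n) ≤ max y 0 / 2 - max (y - 2 * th k n) 0 / 2 := by
          by_cases hy : y - 2 * th k n ≤ 0
          · have e : clip (y - 2 * th k n) = 0 := by
              unfold clip
              exact max_eq_left ((min_le_left _ _).trans hy)
            rw [e, max_eq_right hy]
            have := le_max_right y 0
            linarith
          · push Not at hy
            rw [max_eq_left hy.le, max_eq_left (by linarith)]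
            have := clip_le_one (y - 2 * th k n)
            nlinarith
        linarith
  intro n
  have := key n
  have := le_max_right (s n).2.2.1 0
  linarith

/-- the interleaved sequence of evaluations -/
noncomputable def Th (m : ℕ) : ℕ → ℝ := if Even m then ces m else th m

lemma Th_nonneg (m t : ℕ) : 0 ≤ Th m t := by
  unfold Th; split_ifs
  · exact ces_nonneg _ _
  · exact th_nonneg _ _

lemma one_le_of_not_even {m : ℕ} (h : ¬ Even m) : 1 ≤ m := by
  rcases Nat.eq_zero_or_pos m with h0 | h0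
  · subst h0; exact absurd (by simp) h
  · exact h0

lemma hasSum_Th (m : ℕ) : HasSum (Th m) 1 := by
  unfold Th; split_ifs with h
  · exact hasSum_ces _
  · exact hasSum_th _ (one_le_of_not_even h)

lemma tv_Th : Tendsto (fun k => ∑' t, |Th k (t + 1) - Th k t|) atTop (𝓝 0) := by
  have hlim : Tendsto (fun k : ℕ => (2 : ℝ) / k) atTop (𝓝 0) :=
    tendsto_const_div_atTop_nhds_zero_nat 2
  refine squeeze_zero' (Eventually.of_forall fun k => tsum_nonneg fun t => abs_nonneg _) ?_ hlim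
  filter_upwards [eventually_ge_atTop 1] with k hk
  apply Real.tsum_le_of_sum_le (fun t => abs_nonneg _)
  intro u
  have hk' : (0 : ℝ) < k := by exact_mod_cast hk
  unfold Th; split_ifs with h
  · refine (tv_ces k u).trans ?_
    gcongr
    linarith
  · exact tv_th k hk u

lemma not_unif : ¬ ∃ w : Z → ℝ, TendstoUniformly (fun (k : ℕ) (z : Z) => val (Th k) z) w atTop := by
  rintro ⟨w, hw⟩
  have h1 := Metric.tendstoUniformly_iff.1 hw (1 / 8) (by norm_num)
  have h2 := Metric.tendstoUniformly_iff.1 unif_ces (1 / 8) (by norm_num)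
  obtain ⟨N, hN⟩ := eventually_atTop.1 (h1.and h2)
  have he : Even (2 * N) := even_two_mul N
  have ho : ¬ Even (2 * N + 1) := by simp
  obtain ⟨a1, a2⟩ := hN (2 * N) (by omega)
  obtain ⟨b1, -⟩ := hN (2 * N + 1) (by omega)
  have a1' := a1 (2 * N + 1, 0, 1, false)
  have a2' := a2 (2 * N + 1, 0, 1, false)
  have b1' := b1 (2 * N + 1, 0, 1, false)
  have e1 : Th (2 * N) = ces (2 * N) := by unfold Th; rw [if_pos he]
  have e2 : Th (2 * N + 1) = th (2 * N + 1) := by unfold Th; rw [if_neg ho]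
  rw [e1] at a1'
  rw [e2] at b1'
  have hv := val_th (2 * N + 1)
  have e3 : clip 1 = 1 := by simp [clip]
  simp only [e3] at a2'
  rw [Real.dist_eq, abs_lt] at a1' a2' b1'
  linarith [a1'.1, a1'.2, a2'.1, a2'.2, b1'.1, b1'.2]

end Pool.Agent.H716Z.DP
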